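import Mathlib

set_option autoImplicit false

namespace Pool.Agent.Results.MP_0b5955_al.Counterexample

/-- `z` is central in the (possibly non-unital) ring `S`. -/
def Central {S : Type} [NonUnitalRing S] (z : S) : Prop := ∀ r : S, z * r = r * z

/-- Centrally essential rings (identity not required). -/
def CentrallyEssential (S : Type) [NonUnitalRing S] : Prop :=
  (∀ a b : S, a * b = b * a) ∨
    ∀ a : S, ¬ Central a → ∃ x y : S, Central x ∧ Central y ∧ x ≠ 0 ∧ y ≠ 0 ∧ a * x = y

@[ext] structure T where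
  n : ℤ
  a : ℤ
  b : ℤ
  c : ZMod 2

instance : Add T := ⟨fun x y => ⟨x.n + y.n, x.a + y.a, x.b + y.b, x.c + y.c⟩⟩
instance : Neg T := ⟨fun x => ⟨-x.n, -x.a, -x.b, -x.c⟩⟩
instance : Zero T := ⟨⟨0, 0, 0, 0⟩⟩
instance : One T := ⟨⟨1, 0, 0, 0⟩⟩
instance : Mul T := ⟨fun x y => ⟨x.n * y.n, x.n * y.a + x.a * y.n, x.n * y.b + x.b * y.n,
  x.n * y.c + x.c * y.n + x.a * y.b⟩⟩

theorem add_def (x y : T) : x + y = ⟨x.n + y.n, x.a + y.a, x.b + y.b, x.c + y.c⟩ := rfl
theorem neg_def (x : T) : -x = ⟨-x.n, -x.a, -x.b, -x.c⟩ := rfl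
theorem zero_def : (0 : T) = ⟨0, 0, 0, 0⟩ := rfl
theorem one_def : (1 : T) = ⟨1, 0, 0, 0⟩ := rfl
theorem mul_def (x y : T) : x * y = ⟨x.n * y.n, x.n * y.a + x.a * y.n, x.n * y.b + x.b * y.n,
  x.n * y.c + x.c * y.n + x.a * y.b⟩ := rfl

instance : Ring T := Ring.ofMinimalAxioms
  (by intro x y z; ext <;> simp only [add_def] <;> ring)
  (by intro x; ext <;> simp [add_def, zero_def])
  (by intro x; ext <;> simp only [add_def, neg_def, zero_def] <;> ring)
  (by intro x y z; ext <;> simp only [mul_def] <;> push_cast <;> ring)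
  (by intro x; ext <;> simp [mul_def, one_def])
  (by intro x; ext <;> simp [mul_def, one_def])
  (by intro x y z; ext <;> simp only [add_def, mul_def] <;> push_cast <;> ring)
  (by intro x y z; ext <;> simp only [add_def, mul_def] <;> push_cast <;> ring)

theorem mem_J (x : T) : x ∈ (⊥ : TwoSidedIdeal T).jacobson ↔ x.n = 0 := by
  rw [TwoSidedIdeal.mem_jacobson_iff]
  constructor
  · intro h
    obtain ⟨z, hz⟩ := h 1
    obtain ⟨w, hw⟩ := h (-1)
    rw [TwoSidedIdeal.mem_bot, sub_eq_zero] at hz hw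
    have h1 := congrArg T.n hz
    have h2 := congrArg T.n hw
    simp only [add_def, mul_def, one_def, neg_def] at h1 h2
    have h3 : z.n * (1 + x.n) = 1 := by linear_combination h1
    have h4 : w.n * (1 - x.n) = 1 := by linear_combination h2
    have h5 := Int.eq_one_or_neg_one_of_mul_eq_one' h3
    have h6 := Int.eq_one_or_neg_one_of_mul_eq_one' h4
    omega
  · intro h y
    refine ⟨1 - y * x + y * x * (y * x), ?_⟩
    rw [TwoSidedIdeal.mem_bot]
    have h3 : y * x * (y * x) * (y * x) = 0 := by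
      ext <;> simp [mul_def, zero_def, h]
    calc (1 - y * x + y * x * (y * x)) * y * x + (1 - y * x + y * x * (y * x)) - 1
        = y * x * (y * x) * (y * x) := by noncomm_ring
      _ = 0 := h3

theorem two_zero : (2 : ZMod 2) = 0 := by decide

/-- A centrally essential ring (with identity) whose Jacobson radical is not centrally
essential. -/
theorem result : ∃ (R : Type) (_ : Ring R), CentrallyEssential R ∧
    ¬ CentrallyEssential ↥((⊥ : TwoSidedIdeal R).jacobson) := by
  refine ⟨T, inferInstance, Or.inr ?_, ?_⟩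
  · intro r hr
    refine ⟨⟨2, 0, 0, 0⟩, r * ⟨2, 0, 0, 0⟩, ?_, ?_, ?_, ?_, rfl⟩
    · intro s
      ext <;> simp [mul_def] <;> ring
    · intro s
      ext <;> simp [mul_def, two_zero] <;> ring
    · intro h
      have := congrArg T.n h
      simp [zero_def] at this
    · intro h
      apply hr
      have ha := congrArg T.a h
      have hb := congrArg T.b h
      simp [mul_def, zero_def] at ha hb
      intro s
      ext <;> simp [mul_def, ha, hb] <;> ring
  · have hnc : ¬ Central (⟨⟨0, 1, 0, 0⟩, (mem_J _).2 rfl⟩ :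
        ↥((⊥ : TwoSidedIdeal T).jacobson)) := by
      intro h
      have := congrArg (fun t => T.c t.1) (h ⟨⟨0, 0, 1, 0⟩, (mem_J _).2 rfl⟩)
      simp [mul_def] at this
    rintro (h | h)
    · exact hnc (fun r => h _ r)
    · obtain ⟨x, y, hx, -, -, hy, hxy⟩ := h _ hnc
      apply hy
      rw [← hxy, ← hx]
      have hn := (mem_J _).1 x.2
      apply Subtype.ext
      ext <;> simp [mul_def, zero_def, hn]

end Pool.Agent.Results.MP_0b5955_al.Counterexample
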